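import Pool.Agent.H655.CM.LD

/-!
Finite unions of rational closed chart balls, and compactness arguments.
-/

open Set Filter Topology

namespace Pool.Agent.H655.CM

variable {κ : Type} {E : Type} [NormedAddCommGroup E] [NormedSpace ℝ E]

theorem compact_ev {X : Type} [TopologicalSpace X] {S : Set X} (hS : IsCompact S) {l : Filter κ}
    {P : κ × X → Prop} (h : ∀ x ∈ S, ∀ᶠ p in l ×ˢ 𝓝 x, P p) :
    ∀ᶠ k in l, ∀ x ∈ S, ∀ᶠ x' in 𝓝 x, P (k, x') := by
  refine hS.induction_on (p := fun s => ∀ᶠ k in l, ∀ x ∈ s, ∀ᶠ x' in 𝓝 x, P (k, x')) ?_ ?_ ?_ ?_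
  · simp
  · intro s t hst ht
    filter_upwards [ht] with k hk x hx
    exact hk x (hst hx)
  · intro s t hs ht
    filter_upwards [hs, ht] with k hk1 hk2 x hx
    rcases hx with hx | hx
    · exact hk1 x hx
    · exact hk2 x hx
  · intro x hx
    have h1 := h x hx
    rw [Filter.eventually_prod_iff] at h1
    obtain ⟨pa, ha, pb, hb, h1⟩ := h1
    refine ⟨{y | ∀ᶠ x' in 𝓝 y, pb x'}, mem_nhdsWithin_of_mem_nhds hb.eventually_nhds, ?_⟩
    filter_upwards [ha] with k hk y hy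
    have hy' : ∀ᶠ x' in 𝓝 y, pb x' := hy
    filter_upwards [hy'] with x' hx'
    exact h1 hk hx'

variable [FiniteDimensional ℝ E]

instance : TopologicalSpace.SeparableSpace E := by
  have : ProperSpace E := FiniteDimensional.proper_real E
  infer_instance

/-- The closed rational ball with index `b`. -/
noncomputable def cb (b : ℕ × ℕ × ℕ) : Set E :=
  Metric.closedBall (TopologicalSpace.denseSeq E b.2.1) (1 / ((b.2.2 : ℝ) + 1))

/-- The open rational ball with index `b`. -/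
noncomputable def ob (b : ℕ × ℕ × ℕ) : Set E :=
  Metric.ball (TopologicalSpace.denseSeq E b.2.1) (1 / ((b.2.2 : ℝ) + 1))

theorem ob_sub_cb (b : ℕ × ℕ × ℕ) : (ob b : Set E) ⊆ cb b := Metric.ball_subset_closedBall

theorem ob_open (b : ℕ × ℕ × ℕ) : IsOpen (ob b : Set E) := Metric.isOpen_ball

theorem cb_compact (b : ℕ × ℕ × ℕ) : IsCompact (cb b : Set E) := by
  have : ProperSpace E := FiniteDimensional.proper_real E
  exact isCompact_closedBall _ _

theorem exists_rb (j : ℕ) {x : E} {U : Set E} (hU : U ∈ 𝓝 x) :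
    ∃ b : ℕ × ℕ × ℕ, b.1 = j ∧ x ∈ (ob b : Set E) ∧ (cb b : Set E) ⊆ U := by
  obtain ⟨ε, hε, hεU⟩ := Metric.mem_nhds_iff.1 hU
  obtain ⟨m, hm⟩ := exists_nat_one_div_lt (half_pos hε)
  have hpos : (0 : ℝ) < 1 / ((m : ℝ) + 1) := by positivity
  obtain ⟨n, hn⟩ := (TopologicalSpace.denseRange_denseSeq E).exists_dist_lt x hpos
  refine ⟨(j, n, m), rfl, ?_, ?_⟩
  · show dist x _ < _
    exact hn
  · intro y hy
    apply hεU
    have hy' : dist y (TopologicalSpace.denseSeq E n) ≤ 1 / ((m : ℝ) + 1) := hy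
    have := dist_triangle y (TopologicalSpace.denseSeq E n) x
    have h3 : dist (TopologicalSpace.denseSeq E n) x = dist x (TopologicalSpace.denseSeq E n) :=
      dist_comm _ _
    rw [Metric.mem_ball]
    linarith

/-- All balls of the list lie in the charts of the code. -/
def valid (c : Code E) (t : List (ℕ × ℕ × ℕ)) : Prop := ∀ b ∈ t, (cb b : Set E) ⊆ c.V b.1 b.1

/-- The union of the chart balls of the list. -/
def K (c : Code E) (t : List (ℕ × ℕ × ℕ)) : Set (Pt E) :=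
  {z | ∃ b ∈ t, ∃ x ∈ (cb b : Set E), z = cls c b.1 x}

variable {d c : Code E} {t : List (ℕ × ℕ × ℕ)} {l : Filter κ}

theorem K_sub_M (ht : valid d t) : K d t ⊆ M d := by
  rintro z ⟨b, hb, x, hx, rfl⟩
  exact cls_mem_M (ht b hb hx)

theorem K_append {t' : List (ℕ × ℕ × ℕ)} : K d (t ++ t') = K d t ∪ K d t' := by
  ext z
  constructor
  · rintro ⟨b, hb, x, hx, rfl⟩
    rcases List.mem_append.1 hb with h | h
    · exact Or.inl ⟨b, h, x, hx, rfl⟩
    · exact Or.inr ⟨b, h, x, hx, rfl⟩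
  · rintro (⟨b, hb, x, hx, rfl⟩ | ⟨b, hb, x, hx, rfl⟩)
    · exact ⟨b, List.mem_append.2 (Or.inl hb), x, hx, rfl⟩
    · exact ⟨b, List.mem_append.2 (Or.inr hb), x, hx, rfl⟩

theorem valid_append {t' : List (ℕ × ℕ × ℕ)} (h : valid d t) (h' : valid d t') :
    valid d (t ++ t') := by
  intro b hb
  rcases List.mem_append.1 hb with h1 | h1
  · exact h b h1
  · exact h' b h1

theorem K_ev (ht : valid d t) {P : κ × Pt E → Prop}
    (h : ∀ z ∈ K d t, ∀ᶠ p in l ×ˢ nh d z, P p) :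
    ∀ᶠ k in l, ∀ z ∈ K d t, ∀ᶠ z' in nh d z, P (k, z') := by
  have h1 : ∀ b ∈ t, ∀ᶠ k in l, ∀ x ∈ (cb b : Set E), ∀ᶠ x' in 𝓝 x, P (k, cls d b.1 x') := by
    intro b hb
    refine compact_ev (P := fun p => P (p.1, cls d b.1 p.2)) (cb_compact b) ?_
    intro x hx
    have h2 := h (cls d b.1 x) ⟨b, hb, x, hx, rfl⟩
    rw [evp_nh (ht b hb hx)] at h2
    exact h2
  have h2 : ∀ᶠ k in l, ∀ b ∈ t, ∀ x ∈ (cb b : Set E), ∀ᶠ x' in 𝓝 x, P (k, cls d b.1 x') := by
    clear h ht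
    induction t with
    | nil => simp
    | cons a t ih =>
      have h3 := ih (fun b hb => h1 b (List.mem_cons_of_mem a hb))
      filter_upwards [h3, h1 a List.mem_cons_self] with k hk1 hk2 b hb
      rcases List.mem_cons.1 hb with h | h
      · subst h
        exact hk2
      · exact hk1 b h
  filter_upwards [h2] with k hk z hz
  obtain ⟨b, hb, x, hx, rfl⟩ := hz
  rw [ev_nh (ht b hb hx)]
  exact hk b hb x hx

theorem K_ev' (ht : valid d t) {P : κ × Pt E → Prop}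
    (h : ∀ z ∈ K d t, ∀ᶠ p in l ×ˢ nh d z, P p) :
    ∀ᶠ k in l, ∀ z ∈ K d t, P (k, z) := by
  filter_upwards [K_ev ht h] with k hk z hz
  exact nh_self (K_sub_M ht hz) (P := fun z => P (k, z)) (hk z hz)

theorem K_cover {β : Type} (ht : valid d t) {R : β → Pt E → Prop} {Q : β → Prop}
    (h : ∀ z ∈ K d t, ∃ b, Q b ∧ ∀ᶠ z' in nh d z, R b z') :
    ∃ L : List β, (∀ b ∈ L, Q b) ∧ ∀ z ∈ K d t, ∃ b ∈ L, ∀ᶠ z' in nh d z, R b z' := by
  induction t with
  | nil =>
    refine ⟨[], by simp, ?_⟩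
    rintro z ⟨b, hb, _⟩
    simp at hb
  | cons a t ih =>
    have ht' : valid d t := fun b hb => ht b (List.mem_cons_of_mem a hb)
    have ha : (cb a : Set E) ⊆ d.V a.1 a.1 := ht a List.mem_cons_self
    obtain ⟨L, hL1, hL2⟩ := ih ht' (by
      rintro z ⟨b, hb, x, hx, rfl⟩
      exact h _ ⟨b, List.mem_cons_of_mem a hb, x, hx, rfl⟩)
    have h1 : ∃ L' : List β, (∀ b ∈ L', Q b) ∧ ∀ x ∈ (cb a : Set E), ∃ b ∈ L',
        ∀ᶠ x' in 𝓝 x, R b (cls d a.1 x') := by
      refine (cb_compact a).induction_on (p := fun s => ∃ L' : List β, (∀ b ∈ L', Q b) ∧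
        ∀ x ∈ s, ∃ b ∈ L', ∀ᶠ x' in 𝓝 x, R b (cls d a.1 x')) ?_ ?_ ?_ ?_
      · exact ⟨[], by simp, by simp⟩
      · rintro s s' hs ⟨L', hL'1, hL'2⟩
        exact ⟨L', hL'1, fun x hx => hL'2 x (hs hx)⟩
      · rintro s s' ⟨L', h1, h2⟩ ⟨L'', h3, h4⟩
        refine ⟨L' ++ L'', ?_, ?_⟩
        · intro b hb
          rcases List.mem_append.1 hb with hb | hb
          · exact h1 b hb
          · exact h3 b hb
        · rintro x (hx | hx)
          · obtain ⟨b, hb, hb2⟩ := h2 x hx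
            exact ⟨b, List.mem_append.2 (Or.inl hb), hb2⟩
          · obtain ⟨b, hb, hb2⟩ := h4 x hx
            exact ⟨b, List.mem_append.2 (Or.inr hb), hb2⟩
      · intro x hx
        obtain ⟨b, hb1, hb2⟩ := h (cls d a.1 x) ⟨a, List.mem_cons_self, x, hx, rfl⟩
        rw [ev_nh (ha hx)] at hb2
        refine ⟨{y | ∀ᶠ x' in 𝓝 y, R b (cls d a.1 x')},
          mem_nhdsWithin_of_mem_nhds hb2.eventually_nhds, [b], ?_, ?_⟩
        · intro b' hb'
          rw [List.mem_singleton.1 hb']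
          exact hb1
        · intro y hy
          exact ⟨b, List.mem_singleton.2 rfl, hy⟩
    obtain ⟨L', hL'1, hL'2⟩ := h1
    refine ⟨L ++ L', ?_, ?_⟩
    · intro b hb
      rcases List.mem_append.1 hb with hb | hb
      · exact hL1 b hb
      · exact hL'1 b hb
    · rintro z ⟨b, hb, x, hx, rfl⟩
      rcases List.mem_cons.1 hb with h' | h'
      · subst h'
        obtain ⟨b', hb', hb2⟩ := hL'2 x hx
        refine ⟨b', List.mem_append.2 (Or.inr hb'), ?_⟩
        rw [ev_nh (ha hx)]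
        exact hb2
      · obtain ⟨b', hb', hb2⟩ := hL2 _ ⟨b, h', x, hx, rfl⟩
        exact ⟨b', List.mem_append.2 (Or.inl hb'), hb2⟩

theorem valid_ev {c : κ → Code E} {c₀ : Code E} (hc : CConv l c c₀) (ht : valid c₀ t) :
    ∀ᶠ k in l, valid (c k) t := by
  have h1 : ∀ b ∈ t, ∀ᶠ k in l, (cb b : Set E) ⊆ (c k).V b.1 b.1 := by
    intro b hb
    have h2 := compact_ev (l := l) (P := fun p => p.2 ∈ (c p.1).V b.1 b.1) (cb_compact b)
      (fun x hx => hc.mem b.1 b.1 x (ht b hb hx))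
    filter_upwards [h2] with k hk x hx
    exact (hk x hx).self_of_nhds
  unfold valid
  clear ht
  induction t with
  | nil => simp
  | cons a t ih =>
    have h3 := ih (fun b hb => h1 b (List.mem_cons_of_mem a hb))
    filter_upwards [h3, h1 a List.mem_cons_self] with k hk1 hk2 b hb
    rcases List.mem_cons.1 hb with h | h
    · subst h
      exact hk2
    · exact hk1 b h

/-- Chart balls are closed, uniformly in the family. -/
theorem closed_fam {c : κ → Code E} {c₀ : Code E} (hc : CConv l c c₀) (ht : valid c₀ t)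
    {w : Pt E} (hw : w ∈ M c₀) (hwt : w ∉ K c₀ t) {q : ℕ × E} (hq : q ∈ w) :
    ∀ᶠ p in l ×ˢ 𝓝 q.2, cls (c p.1) q.1 p.2 ∉ K (c p.1) t := by
  have hq' := (mem_iff hw q).1 hq
  have h1 : ∀ b ∈ t, ∀ᶠ p in l ×ˢ 𝓝 q.2, ∀ y ∈ (cb b : Set E),
      ¬ (p.2 ∈ (c p.1).V q.1 b.1 ∧ (c p.1).φ q.1 b.1 p.2 = y) := by
    intro b hb
    have h2 := compact_ev (l := l ×ˢ 𝓝 q.2)
      (P := fun p => ¬ (p.1.2 ∈ (c p.1.1).V q.1 b.1 ∧ (c p.1.1).φ q.1 b.1 p.1.2 = p.2))
      (cb_compact b) (by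
        intro y hy
        have h3 : ¬ (q.2 ∈ c₀.V q.1 b.1 ∧ c₀.φ q.1 b.1 q.2 = y) := by
          intro h4
          apply hwt
          refine ⟨b, hb, y, hy, ?_⟩
          rw [hq'.2, cls_eq_iff (ht b hb hy)]
          exact h4
        have h5 := hc.haus q.1 b.1 q.2 hq'.1 y (ht b hb hy) h3
        have h6 : Tendsto (fun p : (κ × E) × E => (p.1.1, (p.1.2, p.2)))
            ((l ×ˢ 𝓝 q.2) ×ˢ 𝓝 y) (l ×ˢ 𝓝 (q.2, y)) := by
          rw [nhds_prod_eq]
          refine Tendsto.prodMk ?_ ?_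
          · exact tendsto_fst.comp tendsto_fst
          · exact (tendsto_snd.comp tendsto_fst).prodMk tendsto_snd
        exact h6.eventually h5)
    filter_upwards [h2] with p hp y hy
    exact (hp y hy).self_of_nhds
  have h2 : ∀ᶠ p in l ×ˢ 𝓝 q.2, ∀ b ∈ t, ∀ y ∈ (cb b : Set E),
      ¬ (p.2 ∈ (c p.1).V q.1 b.1 ∧ (c p.1).φ q.1 b.1 p.2 = y) := by
    clear ht hwt
    induction t with
    | nil => simp
    | cons a t ih =>
      have h3 := ih (fun b hb => h1 b (List.mem_cons_of_mem a hb))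
      filter_upwards [h3, h1 a List.mem_cons_self] with k hk1 hk2 b hb
      rcases List.mem_cons.1 hb with h | h
      · subst h
        exact hk2
      · exact hk1 b h
  filter_upwards [h2, ev_fst (valid_ev hc ht)] with p hp1 hp2
  rintro ⟨b, hb, y, hy, h3⟩
  rw [cls_eq_iff (hp2 b hb hy)] at h3
  exact hp1 b hb y hy h3

theorem K_closed (ht : valid d t) {w : Pt E} (hw : w ∈ M d) (hwt : w ∉ K d t) :
    ∀ᶠ w' in nh d w, w' ∉ K d t := by
  obtain ⟨q, hq⟩ := exists_mem hw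
  have h1 := closed_fam (l := (⊤ : Filter Unit)) (CConv.const _ d) ht hw hwt hq
  have hq' := (mem_iff hw q).1 hq
  rw [hq'.2, ev_nh hq'.1]
  rw [Filter.eventually_prod_iff] at h1
  obtain ⟨pa, ha, pb, hb, h⟩ := h1
  filter_upwards [hb] with y hy
  exact h (x := ()) ((Filter.eventually_top.1 ha) ()) hy

omit [FiniteDimensional ℝ E] in
theorem sep (c : Code E) {w w' : Pt E} (hw : w ∈ M c) (hw' : w' ∈ M c) (h : w ≠ w') :
    ∀ᶠ p in nh c w ×ˢ nh c w', p.1 ≠ p.2 := by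
  obtain ⟨i, x, hx, rfl⟩ := hw
  obtain ⟨j, y, hy, rfl⟩ := hw'
  have h1 := c.haus i j x hx y hy (fun h2 => h ((cls_eq_iff hy).2 h2))
  rw [nh_cls hx, nh_cls hy, Filter.prod_map_map_eq, eventually_map]
  rw [nhds_prod_eq] at h1
  have h2 : ∀ᶠ p : E × E in 𝓝 x ×ˢ 𝓝 y, p.2 ∈ c.V j j :=
    (tendsto_snd (f := 𝓝 x) (g := 𝓝 y)).eventually ((c.isOpen j j).mem_nhds hy)
  filter_upwards [h1, h2] with p a b h3
  exact a ((cls_eq_iff b).1 h3)

/-- The image of a compact set is closed. -/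
theorem image_closed {e : Pt E → Pt E} (ht : valid d t)
    (he : ∀ z ∈ K d t, Tendsto e (nh d z) (nh c (e z))) (hm : ∀ z ∈ K d t, e z ∈ M c)
    {w : Pt E} (hw : w ∈ M c) (hwt : w ∉ e '' K d t) :
    ∀ᶠ w' in nh c w, w' ∉ e '' K d t := by
  have h1 := K_ev' (l := nh c w) (P := fun p : Pt E × Pt E => p.1 ≠ e p.2) ht (by
    intro z hz
    have h2 := sep c hw (hm z hz) (fun h => hwt ⟨z, hz, h.symm⟩)
    have h3 : Tendsto (fun p : Pt E × Pt E => (p.1, e p.2)) (nh c w ×ˢ nh d z)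
        (nh c w ×ˢ nh c (e z)) := tendsto_fst.prodMk ((he z hz).comp tendsto_snd)
    exact h3.eventually h2)
  filter_upwards [h1] with w' hw'
  rintro ⟨z, hz, h⟩
  exact hw' z hz h.symm

theorem mem_nh_ball {b : ℕ × ℕ × ℕ} (hb : (cb b : Set E) ⊆ c.V b.1 b.1) (hbt : b ∈ t) {x : E}
    (hx : x ∈ (ob b : Set E)) : K c t ∈ nh c (cls c b.1 x) := by
  have h : ∀ᶠ w in nh c (cls c b.1 x), w ∈ K c t := by
    rw [ev_nh (hb (ob_sub_cb b hx))]
    filter_upwards [(ob_open b).mem_nhds hx] with y hy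
    exact ⟨b, hbt, y, ob_sub_cb b hy, rfl⟩
  exact h

/-- The image of a compact set is contained in the interior of a finite union of chart balls, inside
any prescribed open set. -/
theorem image_cover {e : Pt E → Pt E} (ht : valid d t)
    (he : ∀ z ∈ K d t, Tendsto e (nh d z) (nh c (e z))) (hm : ∀ z ∈ K d t, e z ∈ M c)
    {W : Set (Pt E)} (hW : ∀ z ∈ K d t, W ∈ nh c (e z)) :
    ∃ t', valid c t' ∧ (∀ z ∈ K d t, K c t' ∈ nh c (e z)) ∧ ∀ w ∈ K c t', W ∈ nh c w := by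
  obtain ⟨L, hL1, hL2⟩ := K_cover (R := fun (b : ℕ × ℕ × ℕ) z' => e z' ∈ cls c b.1 '' ob b)
    (Q := fun b => (cb b : Set E) ⊆ c.V b.1 b.1 ∧ ∀ x ∈ (cb b : Set E), W ∈ nh c (cls c b.1 x))
    ht (by
      intro z hz
      obtain ⟨q, hq⟩ := exists_mem (hm z hz)
      have hq' := (mem_iff (hm z hz) q).1 hq
      have h1 : ∀ᶠ w in nh c (e z), W ∈ nh c w := by
        have h2 : ∀ᶠ w in nh c (e z), w ∈ W := hW z hz
        exact nh_ev (hm z hz) h2
      rw [hq'.2, ev_nh hq'.1] at h1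
      obtain ⟨b, hb1, hb2, hb3⟩ := exists_rb q.1 (Filter.inter_mem h1
        ((c.isOpen q.1 q.1).mem_nhds hq'.1))
      refine ⟨b, ⟨?_, ?_⟩, ?_⟩
      · intro x hx
        rw [hb1]
        exact (hb3 hx).2
      · intro x hx
        rw [hb1]
        exact (hb3 hx).1
      · have h3 : cls c b.1 '' ob b ∈ nh c (e z) := by
          rw [hq'.2, nh_cls hq'.1, hb1]
          exact Filter.image_mem_map ((ob_open b).mem_nhds hb2)
        exact (he z hz).eventually h3)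
  refine ⟨L, fun b hb => (hL1 b hb).1, ?_, ?_⟩
  · intro z hz
    obtain ⟨b, hb, hbz⟩ := hL2 z hz
    obtain ⟨x, hx, hxe⟩ := nh_self (K_sub_M ht hz) hbz
    rw [← hxe]
    exact mem_nh_ball (hL1 b hb).1 hb hx
  · rintro w ⟨b, hb, x, hx, rfl⟩
    exact (hL1 b hb).2 x hx

theorem enlarge (ht : valid d t) {W : Set (Pt E)} (hW : ∀ z ∈ K d t, W ∈ nh d z) :
    ∃ t', valid d t' ∧ (∀ z ∈ K d t, K d t' ∈ nh d z) ∧ ∀ w ∈ K d t', W ∈ nh d w :=
  image_cover (e := id) ht (fun _ _ => tendsto_id) (fun _ hz => K_sub_M ht hz) hW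

end Pool.Agent.H655.CM
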