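import Pool.Agent.H655.CM.Transfer

/-!
Second countable topologies on the set of codes and on the set of embeddings of a compact piece.
-/

open Set Filter Topology

namespace Pool.Agent.H655.CM

open EK (OE)

variable {κ : Type} {E : Type} [NormedAddCommGroup E] [NormedSpace ℝ E] [FiniteDimensional ℝ E]
variable {l : Filter κ}

local instance : ProperSpace E := FiniteDimensional.proper_real E

/-- Subbasic sets of codes: closeness of a gluing map. -/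
def SA (i j : ℕ) (b b₂ : ℕ × ℕ × ℕ) : Set (Code E) :=
  {c | (cb b : Set E) ⊆ c.V i j ∧ ∀ x ∈ (cb b : Set E), c.φ i j x ∈ (cb b₂ : Set E)}

/-- Subbasic sets of codes: separation of two chart balls. -/
def SD (i j : ℕ) (b b' : ℕ × ℕ × ℕ) : Set (Code E) :=
  {c | (cb b : Set E) ⊆ c.V i i ∧ (cb b' : Set E) ⊆ c.V j j ∧
    ∀ x ∈ (cb b : Set E), ∀ y ∈ (cb b' : Set E), ¬ (x ∈ c.V i j ∧ c.φ i j x = y)}

/-- The subbasis. -/
def subC (E : Type) [NormedAddCommGroup E] [NormedSpace ℝ E] [FiniteDimensional ℝ E] :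
    Set (Set (Code E)) :=
  range (fun p : ℕ × ℕ × (ℕ × ℕ × ℕ) × (ℕ × ℕ × ℕ) => SA p.1 p.2.1 p.2.2.1 p.2.2.2) ∪
  range (fun p : ℕ × ℕ × (ℕ × ℕ × ℕ) × (ℕ × ℕ × ℕ) => SD p.1 p.2.1 p.2.2.1 p.2.2.2)

theorem subC_countable : (subC E).Countable :=
  (countable_range _).union (countable_range _)

/-- Topology on the set of codes. -/
instance topC : TopologicalSpace (Code E) := TopologicalSpace.generateFrom (subC E)

instance : SecondCountableTopology (Code E) := ⟨⟨subC E, subC_countable, rfl⟩⟩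

theorem SA_open (i j : ℕ) (b b₂ : ℕ × ℕ × ℕ) :
    IsOpen (SA i j b b₂ : Set (Code E)) :=
  TopologicalSpace.isOpen_generateFrom_of_mem (Or.inl ⟨(i, j, b, b₂), rfl⟩)

theorem SD_open (i j : ℕ) (b b₂ : ℕ × ℕ × ℕ) :
    IsOpen (SD i j b b₂ : Set (Code E)) :=
  TopologicalSpace.isOpen_generateFrom_of_mem
    (Or.inr ⟨(i, j, b, b₂), rfl⟩)

theorem exists_SA {c₀ : Code E} {i j : ℕ} {x : E} (hx : x ∈ c₀.V i j) {ε : ℝ} (hε : 0 < ε) :
    ∃ b b₂, c₀ ∈ (SA i j b b₂ : Set (Code E)) ∧ x ∈ (ob b : Set E) ∧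
      (∀ c ∈ (SA i j b b₂ : Set (Code E)), ∀ y ∈ (ob b : Set E),
        dist (c.φ i j y) (c₀.φ i j x) < ε) := by
  obtain ⟨b₂, hb₂1, hb₂2, hb₂3⟩ := exists_rb 0 (Metric.ball_mem_nhds (c₀.φ i j x) hε)
  have h1 : (c₀.φ i j) ⁻¹' (ob b₂) ∈ 𝓝 x :=
    (c₀.continuousAt hx) ((ob_open b₂).mem_nhds hb₂2)
  obtain ⟨b, hb1, hb2, hb3⟩ := exists_rb 0 (Filter.inter_mem ((c₀.isOpen i j).mem_nhds hx) h1)
  refine ⟨b, b₂, ⟨fun y hy => (hb3 hy).1, fun y hy => ob_sub_cb b₂ (hb3 hy).2⟩, hb2, ?_⟩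
  intro c hc y hy
  exact hb₂3 (hc.2 y (ob_sub_cb b hy))

theorem conv_of_sub {c : κ → Code E} {c₀ : Code E}
    (h : ∀ S ∈ subC E, c₀ ∈ S → ∀ᶠ k in l, c k ∈ S) : CConv l c c₀ := by
  have hSA : ∀ i j b b₂, c₀ ∈ (SA i j b b₂ : Set (Code E)) → ∀ᶠ k in l,
      c k ∈ (SA i j b b₂ : Set (Code E)) := fun i j b b₂ h0 =>
    h _ (Or.inl ⟨(i, j, b, b₂), rfl⟩) h0
  refine ⟨?_, ?_, ?_⟩
  · intro i j x hx
    obtain ⟨b, b₂, h1, h2, _⟩ := exists_SA hx one_pos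
    filter_upwards [ev_fst (hSA _ _ _ _ h1), ev_snd ((ob_open b).mem_nhds h2)] with p a1 a2
    exact a1.1 (ob_sub_cb b a2)
  · intro i j x hx
    refine ⟨?_, ?_⟩
    · obtain ⟨b, b₂, h1, h2, _⟩ := exists_SA hx one_pos
      refine ⟨ob b, h2, (c₀.oe i j).mono (ob_open b) ((ob_sub_cb b).trans h1.1), ?_⟩
      filter_upwards [hSA _ _ _ _ h1] with k a1
      exact ((c k).oe i j).mono (ob_open b) ((ob_sub_cb b).trans a1.1)
    · rw [Metric.tendsto_nhds]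
      intro ε hε
      obtain ⟨b, b₂, h1, h2, h3⟩ := exists_SA hx hε
      filter_upwards [ev_fst (hSA _ _ _ _ h1), ev_snd ((ob_open b).mem_nhds h2)] with p a1 a2
      exact h3 _ a1 _ a2
  · intro i j x hx y hy hne
    have h1 := c₀.haus i j x hx y hy hne
    rw [nhds_prod_eq, Filter.eventually_prod_iff] at h1
    obtain ⟨pa, ha, pb, hb, h1⟩ := h1
    obtain ⟨b, hb1, hb2, hb3⟩ := exists_rb 0 (Filter.inter_mem ((c₀.isOpen i i).mem_nhds hx) ha)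
    obtain ⟨b', hb1', hb2', hb3'⟩ := exists_rb 0
      (Filter.inter_mem ((c₀.isOpen j j).mem_nhds hy) hb)
    have h2 : c₀ ∈ (SD i j b b' : Set (Code E)) := by
      refine ⟨fun z hz => (hb3 hz).1, fun z hz => (hb3' hz).1, ?_⟩
      intro z hz z' hz'
      exact h1 (hb3 hz).2 (hb3' hz').2
    have h3 := h _ (Or.inr ⟨(i, j, b, b'), rfl⟩) h2
    have h4 : ∀ᶠ p : κ × (E × E) in l ×ˢ 𝓝 (x, y), p.2 ∈ (ob b : Set E) ×ˢ (ob b' : Set E) :=
      ev_snd (((ob_open b).prod (ob_open b')).mem_nhds ⟨hb2, hb2'⟩)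
    filter_upwards [ev_fst h3, h4] with p a1 a2
    exact a1.2.2 _ (ob_sub_cb b a2.1) _ (ob_sub_cb b' a2.2)

theorem conv_of_tendsto {c : κ → Code E} {c₀ : Code E} (h : Tendsto c l (𝓝 c₀)) :
    CConv l c c₀ := by
  refine conv_of_sub ?_
  intro S hS h0
  exact h.eventually ((TopologicalSpace.isOpen_generateFrom_of_mem hS).mem_nhds h0)

/-- Embeddings of the piece `K d s` into coded manifolds. -/
structure Y (d : Code E) (s : List (ℕ × ℕ × ℕ)) where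
  c : Code E
  e : Pt E → Pt E
  emb : Emb d s c e

/-- Regularity of a map at a chart point, read in the chart `i` of the target. -/
def Reg (d c : Code E) (e : Pt E → Pt E) (j i : ℕ) (G : Set E) (x : E) : Prop :=
  x ∈ d.V j j ∧ (∀ᶠ x' in 𝓝 x, e (cls d j x') = cls c i (rp e d j i x') ∧
    rp e d j i x' ∈ c.V i i) ∧ SN (rp e d j i) x ∧ rp e d j i x ∈ G

/-- Subbasic sets of embeddings. -/
def SE (d : Code E) (s : List (ℕ × ℕ × ℕ)) (j i : ℕ) (b : ℕ × ℕ × ℕ)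
    (G : Set E) : Set (Y d s) :=
  {y | (∀ x ∈ (cb b : Set E), Reg d y.c y.e j i G x) ∧ InjOn (rp y.e d j i) (cb b)}

/-- The subbasis. -/
def subY (d : Code E) (s : List (ℕ × ℕ × ℕ)) : Set (Set (Y d s)) :=
  (fun S : Set (Code E) => {y : Y d s | y.c ∈ S}) '' subC E ∪
  ⋃ p : ℕ × ℕ × (ℕ × ℕ × ℕ), (fun G => SE d s p.1 p.2.1 p.2.2 G) ''
    TopologicalSpace.countableBasis E

theorem subY_countable (d : Code E) (s : List (ℕ × ℕ × ℕ)) : (subY d s).Countable :=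
  (subC_countable.image _).union
    (countable_iUnion fun _ => (TopologicalSpace.countable_countableBasis _).image _)

instance topY (d : Code E) (s : List (ℕ × ℕ × ℕ)) : TopologicalSpace (Y d s) :=
  TopologicalSpace.generateFrom (subY d s)

instance (d : Code E) (s : List (ℕ × ℕ × ℕ)) : SecondCountableTopology (Y d s) :=
  ⟨⟨subY d s, subY_countable d s, rfl⟩⟩

variable {d : Code E} {s : List (ℕ × ℕ × ℕ)}

theorem SE_open {j i : ℕ} {b : ℕ × ℕ × ℕ} {G : Set E}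
    (hG : G ∈ TopologicalSpace.countableBasis E) : IsOpen (SE d s j i b G) :=
  TopologicalSpace.isOpen_generateFrom_of_mem
    (Or.inr (mem_iUnion.2 ⟨(j, i, b), G, hG, rfl⟩))

theorem Y_conv {y : κ → Y d s} {y₀ : Y d s} (h : Tendsto y l (𝓝 y₀)) :
    CConv l (fun k => (y k).c) y₀.c := by
  refine conv_of_sub ?_
  intro S hS h0
  have h1 : IsOpen {y : Y d s | y.c ∈ S} :=
    TopologicalSpace.isOpen_generateFrom_of_mem (Or.inl ⟨S, hS, rfl⟩)
  exact h.eventually (h1.mem_nhds h0)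

theorem Y_mc {y : κ → Y d s} {y₀ : Y d s} (h : Tendsto y l (𝓝 y₀)) {z : Pt E}
    (hz : LD d y₀.c y₀.e z) :
    MC l (fun _ => d) d (fun k => (y k).c) y₀.c (fun k => (y k).e) y₀.e z := by
  obtain ⟨q, hq⟩ := exists_mem hz.1
  obtain ⟨q', hq'⟩ := exists_mem hz.mem_tgt
  have h1 := hz.at hq hq'
  have hq2 := (mem_iff hz.1 q).1 hq
  set u₀ := rp y₀.e d q.1 q'.1 with hu₀
  have key : ∀ G ∈ TopologicalSpace.countableBasis E,
      u₀ q.2 ∈ G → ∃ b : ℕ × ℕ × ℕ, q.2 ∈ (ob b : Set E) ∧ OE u₀ (ob b) ∧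
        ∀ᶠ k in l, (∀ x ∈ (cb b : Set E), Reg d (y k).c (y k).e q.1 q'.1 G x) ∧
          InjOn (rp (y k).e d q.1 q'.1) (cb b) := by
    intro G hG hmem
    have hGo : IsOpen G := TopologicalSpace.isOpen_of_mem_countableBasis hG
    obtain ⟨W, hxW, hW⟩ := id h1.sn
    have h2 : ∀ᶠ x in 𝓝 q.2, Reg d y₀.c y₀.e q.1 q'.1 G x ∧ x ∈ W := by
      filter_upwards [(d.isOpen q.1 q.1).mem_nhds hq2.1, h1.ev0.eventually_nhds, h1.sn.ev,
        h1.sn.tendsto.eventually (hGo.mem_nhds hmem), hW.op.mem_nhds hxW] with x a1 a2 a3 a4 a5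
      exact ⟨⟨a1, a2, a3, a4⟩, a5⟩
    obtain ⟨b, hb1, hb2, hb3⟩ := exists_rb 0 h2
    have hbW : (cb b : Set E) ⊆ W := fun x hx => (hb3 hx).2
    have h3 : y₀ ∈ SE d s q.1 q'.1 b G := ⟨fun x hx => (hb3 hx).1, hW.inj.mono hbW⟩
    exact ⟨b, hb2, hW.mono (ob_open b) ((ob_sub_cb b).trans hbW),
      h.eventually ((SE_open hG).mem_nhds h3)⟩
  obtain ⟨G₀, hG₀, hmem₀, _⟩ := (TopologicalSpace.isBasis_countableBasis
      E).exists_subset_of_mem_open (mem_univ (u₀ q.2)) isOpen_univ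
  obtain ⟨b, hb, hbOE, hbev⟩ := key G₀ hG₀ hmem₀
  refine ⟨hz.1, q, hq, q'.1, ⟨h1.src, h1.ev0, ?_, ⟨⟨ob b, hb, hbOE, ?_⟩, ?_⟩⟩⟩
  · filter_upwards [ev_fst hbev, ev_snd ((ob_open b).mem_nhds hb)] with p hp hp2
    exact (hp.1 p.2 (ob_sub_cb b hp2)).2.1.self_of_nhds
  · filter_upwards [hbev] with k hk
    refine EK.oe_local (hk.2.mono (ob_sub_cb b)) ?_
    intro x hx
    obtain ⟨W, hxW, hW⟩ := (hk.1 x (ob_sub_cb b hx)).2.2.1
    exact ⟨W ∩ ob b, ⟨hxW, hx⟩, inter_subset_right,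
      hW.mono (hW.op.inter (ob_open b)) inter_subset_left⟩
  · rw [(TopologicalSpace.isBasis_countableBasis E).nhds_hasBasis.tendsto_right_iff]
    rintro G ⟨hG, hmem⟩
    obtain ⟨b', hb', _, hbev'⟩ := key G hG hmem
    filter_upwards [ev_fst hbev', ev_snd ((ob_open b').mem_nhds hb')] with p hp hp2
    exact (hp.1 p.2 (ob_sub_cb b' hp2)).2.2.2

end Pool.Agent.H655.CM
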